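import Pool.Agent.W206.YP.Stm
import Pool.Agent.W206.CT.CO

/-!
# YP: transcendence degree of the tuple `(x_J, lam, lam + a)`
-/

set_option autoImplicit false

namespace Pool.Agent.W540.YP.TA

open Set Pool.Agent.W206.YP Pool.Agent.W206.CT

theorem mem_cl {K L : Type} [Field K] [Field L] [Algebra K L] (S : Set L) (z : L) :
    z ∈ (AlgebraicIndependent.matroid K L).closure S ↔
      IsAlgebraic (IntermediateField.adjoin K S) z := by
  rw [AlgebraicIndependent.matroid_closure_eq, IntermediateField.isAlgebraic_adjoin_iff]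
  rfl

theorem rk {K L ι κ : Type} [Field K] [Field L] [Algebra K L] [Fintype κ] (w : ι → L)
    (b : κ → L) (hb : AlgebraicIndependent K b)
    (h1 : ∀ i, w i ∈ (AlgebraicIndependent.matroid K L).closure (range b))
    (h2 : ∀ k, b k ∈ (AlgebraicIndependent.matroid K L).closure (range w)) :
    (AlgebraicIndependent.matroid K L).eRk (range w) = (Fintype.card κ : ℕ∞) := by
  have e1 : (AlgebraicIndependent.matroid K L).closure (range w) =
      (AlgebraicIndependent.matroid K L).closure (range b) := by
    apply Subset.antisymm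
    · apply Matroid.closure_subset_closure_of_subset_closure
      rintro _ ⟨i, rfl⟩
      exact h1 i
    · apply Matroid.closure_subset_closure_of_subset_closure
      rintro _ ⟨i, rfl⟩
      exact h2 i
  have hi : (AlgebraicIndependent.matroid K L).Indep (range b) := hb.to_subtype_range
  rw [← Matroid.eRk_closure_eq, e1, Matroid.eRk_closure_eq, hi.eRk_eq_encard,
    ← Set.image_univ, (hb.injective).injOn.encard_image]
  simp

/-- **TA** -/
theorem main : S_TA := by
  classical
  intro ρ _ a
  obtain ⟨I, hI, hIa, hIm⟩ := t_co Qb ℂ ρ a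
  refine ⟨I.card + Fintype.card ρ, ?_⟩
  intro σ _ x J lam hlam hx m
  obtain ⟨I1, hI1, hIa1, hIm1⟩ := t_co (IntermediateField.adjoin Qb (Set.range a)) ℂ σ x
  obtain ⟨I2, hI2, hIa2, hIm2⟩ := t_co Qb ℂ (J ⊕ (ρ ⊕ ρ)) (wt x J lam a)
  rw [hIm1 m, hIm2 (m + (I.card + Fintype.card ρ))]
  -- the combined basis
  have hB1 : AlgebraicIndependent Qb
      (Sum.elim (fun i : I1 => x i) (fun i : I => a i)) := by
    refine AlgebraicIndependent.sumElim_of_tower
      (S := IntermediateField.adjoin Qb (Set.range a)) hI ?_ hI1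
    rintro _ ⟨i, rfl⟩
    exact ⟨⟨a i, IntermediateField.subset_adjoin _ _ ⟨i, rfl⟩⟩, rfl⟩
  have hB : AlgebraicIndependent Qb
      (Sum.elim lam (Sum.elim (fun i : I1 => x i) (fun i : I => a i))) := by
    refine AlgebraicIndependent.sumElim_of_tower
      (S := IntermediateField.adjoin Qb (Set.range x ∪ Set.range a)) hB1 ?_ hlam
    rintro _ ⟨i | i, rfl⟩
    · exact ⟨⟨x i, IntermediateField.subset_adjoin _ _ (Or.inl ⟨i, rfl⟩)⟩, rfl⟩
    · exact ⟨⟨a i, IntermediateField.subset_adjoin _ _ (Or.inr ⟨i, rfl⟩)⟩, rfl⟩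
  have r1 := rk (K := Qb) (L := ℂ) (wt x J lam a) (fun i : I2 => wt x J lam a i) hI2
    (by
      intro i
      rw [mem_cl]
      have := hIa2 i
      rwa [Set.image_eq_range] at this)
    (by
      intro k
      exact Matroid.mem_closure_of_mem' _ ⟨k, rfl⟩ (by simp))
  set B : ρ ⊕ (I1 ⊕ I) → ℂ := Sum.elim lam (Sum.elim (fun i : I1 => x i) (fun i : I => a i))
    with hBdef
  -- a in the closure of the basis
  have ca : ∀ i, a i ∈ (AlgebraicIndependent.matroid Qb ℂ).closure (range B) := by
    intro i
    have h := hIa i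
    rw [← mem_cl] at h
    refine (AlgebraicIndependent.matroid Qb ℂ).closure_subset_closure ?_ h
    rintro _ ⟨j, hj, rfl⟩
    exact ⟨Sum.inr (Sum.inr ⟨j, hj⟩), rfl⟩
  have cx : ∀ i, x i ∈ (AlgebraicIndependent.matroid Qb ℂ).closure (range B) := by
    intro i
    have h : IsAlgebraic (IntermediateField.adjoin Qb (range a ∪ x '' (I1 : Set σ))) (x i) := by
      rw [← IntermediateField.adjoin_adjoin_left]
      exact hIa1 i
    rw [← mem_cl] at h
    refine Matroid.closure_subset_closure_of_subset_closure ?_ h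
    rintro _ (⟨j, rfl⟩ | ⟨j, hj, rfl⟩)
    · exact ca j
    · exact Matroid.mem_closure_of_mem' _ ⟨Sum.inr (Sum.inl ⟨j, hj⟩), rfl⟩ (by simp)
  have cl : ∀ i, lam i ∈ (AlgebraicIndependent.matroid Qb ℂ).closure (range B) := by
    intro i
    exact Matroid.mem_closure_of_mem' _ ⟨Sum.inl i, rfl⟩ (by simp)
  have r2 := rk (K := Qb) (L := ℂ) (wt x J lam a) B hB
    (by
      rintro (i | i | i)
      · exact cx i
      · exact cl i
      · have h1 := cl i
        have h2 := ca i
        rw [mem_cl] at h1 h2 ⊢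
        exact h1.add h2)
    (by
      have dl : ∀ i, lam i ∈ (AlgebraicIndependent.matroid Qb ℂ).closure
          (range (wt x J lam a)) := fun i =>
        Matroid.mem_closure_of_mem' _ ⟨Sum.inr (Sum.inl i), rfl⟩ (by simp)
      rintro (i | i | i)
      · exact dl i
      · have h := hx i
        rw [← mem_cl] at h
        refine (AlgebraicIndependent.matroid Qb ℂ).closure_subset_closure ?_ h
        rintro _ ⟨j, hj, rfl⟩
        exact ⟨Sum.inl ⟨j, hj⟩, rfl⟩
      · have h1 := dl i
        have h2 : lam i + a i ∈ (AlgebraicIndependent.matroid Qb ℂ).closure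
            (range (wt x J lam a)) :=
          Matroid.mem_closure_of_mem' _ ⟨Sum.inr (Sum.inr i), rfl⟩ (by simp)
        have h3 : a i = (lam i + a i) - lam i := by ring
        change a i ∈ _
        rw [h3, mem_cl]
        rw [mem_cl] at h1 h2
        exact h2.sub h1)
  have r3 := r1.symm.trans r2
  have r4 : I2.card = Fintype.card ρ + (I1.card + I.card) := by
    have : Fintype.card I2 = Fintype.card (ρ ⊕ (I1 ⊕ I)) := by exact_mod_cast r3
    simpa using this
  omega

end Pool.Agent.W540.YP.TA
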